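import Pool.Agent.E8helper19.EN.Fin2
import Pool.Agent.E8helper33.EN.Ibp
import Pool.Agent.E8helper8.EN.Vag
import Pool.Agent.E8helper41.EN.Fub
import Pool.Agent.E8helper87.EN.Gauss
import Pool.Agent.E8helper93.EN.Cpt
import Pool.Agent.E8helper54.EN.Inv

/-!
# Energy at the values of eigenfunctions, and when the limit law is normal (MP_a52643_an)

A Riemannian surface is described by finitely many isothermal charts: open sets `Ω i ⊆ ℂ` with the
metrics `ρ i |dz|²`, so `dvol = ρ dx dy`, `Δ_g = ρ⁻¹ (∂x² + ∂y²)` and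
`|∇_g u|² dvol = |∇u|² dx dy`. The functions `u i n` are the coordinate forms of real
eigenfunctions with the eigenvalue `lam n`, and `φ i` are nonnegative test functions, for instance
a partition of unity of a compact surface `X`, when `value ρ φ u n g = ∫_X g(u_n) dvol`.
-/

set_option autoImplicit false
open MeasureTheory Filter Topology Complex Set ProbabilityTheory
open scoped ContDiff ENNReal NNReal

namespace Pool.Agent.Results.MP_a52643_an.EnergyAtValuesH19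

noncomputable section

/-- the Laplacian `∂x² + ∂y²` -/
def lapl (f : ℂ → ℝ) (z : ℂ) : ℝ :=
  fderiv ℝ (fun w => fderiv ℝ f w 1) z 1 + fderiv ℝ (fun w => fderiv ℝ f w I) z I

/-- `|∇f|² = (∂x f)² + (∂y f)²` -/
def gsq (f : ℂ → ℝ) (z : ℂ) : ℝ := fderiv ℝ f z 1 ^ 2 + fderiv ℝ f z I ^ 2

/-- A chart `Ω` with the metric `ρ |dz|²`, real solutions `u n` of `Δ_g u + lam n u = 0` with
`lam n → ∞`, locally bounded in `L²`, and a nonnegative test function `φ`. -/
structure Chart (Ω : Set ℂ) (ρ : ℂ → ℝ) (lam : ℕ → ℝ) (u : ℕ → ℂ → ℝ) (φ : ℂ → ℝ) : Prop where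
  isOpen : IsOpen Ω
  metric_smooth : ContDiffOn ℝ ∞ ρ Ω
  metric_pos : ∀ z ∈ Ω, 0 < ρ z
  lam_tendsto : Tendsto lam atTop atTop
  smooth : ∀ n, ContDiffOn ℝ ∞ (u n) Ω
  eigen : ∀ n, ∀ z ∈ Ω, lapl (u n) z + lam n * (ρ z * u n z) = 0
  locL2 : ∀ K : Set ℂ, IsCompact K → K ⊆ Ω → ∃ C : ℝ, ∀ᶠ n in atTop, ∫ z in K, u n z ^ 2 ≤ C
  test_smooth : ContDiff ℝ ∞ φ
  test_compact : HasCompactSupport φ
  test_support : tsupport φ ⊆ Ω
  test_nonneg : ∀ z, 0 ≤ φ z

variable {ι : Type} [Fintype ι]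

/-- the total mass `∑ ∫ φ dvol` -/
def mass (ρ φ : ι → ℂ → ℝ) : ℝ := ∑ i, ∫ z, φ i z * ρ i z

/-- the law of the values of `u_n`: `g ↦ ∑ ∫ φ g(u_n) dvol` -/
def value (ρ φ : ι → ℂ → ℝ) (u : ι → ℕ → ℂ → ℝ) (n : ℕ) (g : ℝ → ℝ) : ℝ :=
  ∑ i, ∫ z, φ i z * (g (u i n z) * ρ i z)

/-- the energy at the values of `u_n`: `g ↦ λ_n⁻¹ ∑ ∫ φ g(u_n) |∇u_n|²` -/
def energy (φ : ι → ℂ → ℝ) (lam : ℕ → ℝ) (u : ι → ℕ → ℂ → ℝ) (n : ℕ) (g : ℝ → ℝ) : ℝ :=
  ∑ i, (lam n)⁻¹ * ∫ z, φ i z * (g (u i n z) * gsq (u i n) z)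

/-- `H(t) = ∫_{x > t} x dν(x)` -/
def tail (ν : Measure ℝ) (t : ℝ) : ℝ := ∫ x in Ioi t, x ∂ν

/-- **Result.** (1) Along every subsequence along which the laws of the values converge vaguely to a
finite measure `ν`, no mass is lost, the energy at the values converges too, and its limit has the
bounded density `H(t) = ∫_{x > t} x dν(x)`; the law `ν` is a multiple of `N(0,v)` iff
`energy g - v value g → 0` along the subsequence.
(2) The laws of the values converge weakly to a measure `μ` iff the energies at the values converge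
vaguely to `H dt`, with `H(t) = ∫_{x > t} x dμ(x)`.
(3) The following are equivalent: the laws of the values converge weakly to the normal law of
variance `v`; the energies at the values converge vaguely to `v` times the normal law;
`energy g - v value g → 0` for all test functions `g` of the value. -/
theorem result (ι : Type) [Fintype ι] [Nonempty ι] (Ω : ι → Set ℂ) (ρ φ : ι → ℂ → ℝ)
    (lam : ℕ → ℝ) (u : ι → ℕ → ℂ → ℝ) (H : ∀ i, Chart (Ω i) (ρ i) lam (u i) (φ i)) :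
    (∀ (σ : ℕ → ℕ) (ν : Measure ℝ), StrictMono σ → IsFiniteMeasure ν →
      (∀ g : ℝ → ℝ, Continuous g → HasCompactSupport g →
        Tendsto (fun n => value ρ φ u (σ n) g) atTop (𝓝 (∫ x, g x ∂ν))) →
      ν.real univ = mass ρ φ ∧ Integrable (fun x => x ^ 2) ν ∧ ∫ x, x ∂ν = 0 ∧
      (∀ t, |tail ν t| ≤ ∫ x, |x| ∂ν) ∧
      (∀ g : ℝ → ℝ, Continuous g → HasCompactSupport g →
        Tendsto (fun n => energy φ lam u (σ n) g) atTop (𝓝 (∫ t, g t * tail ν t))) ∧
      ∀ v : ℝ≥0, v ≠ 0 → (ν = ν univ • gaussianReal 0 v ↔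
        ∀ g : ℝ → ℝ, Continuous g → HasCompactSupport g →
          Tendsto (fun n => energy φ lam u (σ n) g - v * value ρ φ u (σ n) g) atTop (𝓝 0))) ∧
    (∀ μ : Measure ℝ, IsFiniteMeasure μ → μ.real univ = mass ρ φ → Integrable (fun x => x) μ →
      ((∀ g : ℝ → ℝ, Continuous g → (∃ C : ℝ, ∀ x, |g x| ≤ C) →
          Tendsto (fun n => value ρ φ u n g) atTop (𝓝 (∫ x, g x ∂μ))) ↔
        ∀ g : ℝ → ℝ, Continuous g → HasCompactSupport g →
          Tendsto (fun n => energy φ lam u n g) atTop (𝓝 (∫ t, g t * tail μ t)))) ∧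
    ∀ v : ℝ≥0, v ≠ 0 → List.TFAE [
      ∀ g : ℝ → ℝ, Continuous g → (∃ C : ℝ, ∀ x, |g x| ≤ C) →
        Tendsto (fun n => value ρ φ u n g) atTop
          (𝓝 (mass ρ φ * ∫ x, g x ∂(gaussianReal 0 v))),
      ∀ g : ℝ → ℝ, Continuous g → HasCompactSupport g →
        Tendsto (fun n => energy φ lam u n g) atTop
          (𝓝 (v * (mass ρ φ * ∫ x, g x ∂(gaussianReal 0 v)))),
      ∀ g : ℝ → ℝ, Continuous g → HasCompactSupport g →
        Tendsto (fun n => energy φ lam u n g - v * value ρ φ u n g) atTop (𝓝 0)] := by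
  have h1 := Pool.Agent.E8helper33.EN.t_IBP
  have h2 := Pool.Agent.E8helper8.EN.t_VAG
  have h3 := Pool.Agent.E8helper41.EN.t_FUB
  have h4 := Pool.Agent.E8helper87.EN.t_GAUSS
  have h5 := Pool.Agent.E8helper93.EN.t_CPT
  have h6 := Pool.Agent.E8helper54.EN.t_INV
  have K : ∀ i, Pool.Agent.E8helper19.EN.Hy (Ω i) (ρ i) lam (u i) (φ i) := fun i =>
    ⟨(H i).isOpen, (H i).metric_smooth, (H i).metric_pos, (H i).lam_tendsto, (H i).smooth,
      (H i).eigen, (H i).locL2, (H i).test_smooth, (H i).test_compact, (H i).test_support,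
      (H i).test_nonneg⟩
  refine ⟨fun σ ν hσ hν hlim => ?_, fun μ hμ hm hi => ?_, fun v hv => ?_⟩
  · have K' : ∀ i, Pool.Agent.E8helper19.EN.Hy (Ω i) (ρ i) (fun n => lam (σ n))
        (fun n => u i (σ n)) (φ i) := fun i => (K i).sub hσ
    obtain ⟨a1, a2, a3, -, a5⟩ := Pool.Agent.E8helper19.EN.fam_main h1 h2 h3 K' hν hlim
    have ix : Integrable (fun x : ℝ => x) ν := by
      have h : Integrable (fun x : ℝ => 1 + x ^ 2) ν := (integrable_const 1).add a2
      refine h.mono' (by fun_prop) (Eventually.of_forall fun x => ?_)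
      rw [Real.norm_eq_abs, abs_le]
      constructor <;> nlinarith [sq_nonneg (x - 1), sq_nonneg (x + 1)]
    exact ⟨a1, a2, a3, (h3 ν hν ix).2.1, a5, fun v hv =>
      Pool.Agent.E8helper19.EN.fam_gauss h1 h2 h3 h4 K' hν hlim hv⟩
  · exact Pool.Agent.E8helper19.EN.fam_conv h1 h2 h3 h5 h6 K hμ hm hi
  · exact Pool.Agent.E8helper19.EN.fam_tfae h1 h2 h3 h4 h5 h6 K hv

end

end Pool.Agent.Results.MP_a52643_an.EnergyAtValuesH19
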