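import Pool.Agent.E8helper19.LW.Uni3
import Pool.Agent.E8helper19.LW.Lp
import Pool.Agent.E8helper19.LW.Sharp

/-!
# The laws of eigenfunctions: weak-`L²` densities, with absolute constants (MP_a52643_an)

`Ω ⊆ ℂ` is the domain of isothermal coordinates of a Riemannian surface with metric `ρ |dz|²`,
so `dvol = ρ dx dy` and `Δ_g = ρ⁻¹ (∂x² + ∂y²)`.
-/

set_option autoImplicit false
open MeasureTheory Filter Topology Complex
open scoped ContDiff ENNReal Manifold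

namespace Pool.Agent.Results.MP_a52643_an.WeakLTwoDensityH19

noncomputable section

/-- the Laplacian `∂x² + ∂y²` -/
def lapl (f : ℂ → ℝ) (z : ℂ) : ℝ :=
  fderiv ℝ (fun w => fderiv ℝ f w 1) z 1 + fderiv ℝ (fun w => fderiv ℝ f w I) z I

/-- the sequence `u` is locally bounded in `L²` on `Ω` -/
def LocL2 (Ω : Set ℂ) (u : ℕ → ℂ → ℝ) : Prop :=
  ∀ K : Set ℂ, IsCompact K → K ⊆ Ω → ∃ C : ℝ, ∀ᶠ n in atTop, ∫ z in K, u n z ^ 2 ≤ C

/-- nonnegative test functions: smooth, with compact support contained in `Ω` -/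
def Test (Ω : Set ℂ) (φ : ℂ → ℝ) : Prop :=
  ContDiff ℝ ∞ φ ∧ HasCompactSupport φ ∧ tsupport φ ⊆ Ω ∧ ∀ z, 0 ≤ φ z

/-- `ν` is a vague limit, along a subsequence, of the laws `g ↦ ∫ φ g(u_n) dvol` -/
def IsLimitLaw (φ ρ : ℂ → ℝ) (u : ℕ → ℂ → ℝ) (ν : Measure ℝ) : Prop :=
  ∃ σ : ℕ → ℕ, StrictMono σ ∧ ∀ g : ℝ → ℝ, Continuous g → HasCompactSupport g →
    Tendsto (fun n => ∫ z, φ z * (g (u (σ n) z) * ρ z)) atTop (𝓝 (∫ x, g x ∂ν))

/-- the law of `f` under the measure `φ dvol` -/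
def lawOf (Ω : Set ℂ) (φ ρ f : ℂ → ℝ) : Measure ℝ :=
  ((volume.restrict Ω).withDensity (fun z => ENNReal.ofReal (φ z * ρ z))).map f

open Pool.Agent.TH421.AC Pool.Agent.TH421.DF Pool.Agent.TH294.RS Pool.Agent.TH294.RG
open Pool.Agent.W745.RW Pool.Agent.E8helper19.LW

lemma exists_cutR {U K : Set ℝ} (hU : IsOpen U) (hK : IsCompact K) (hKU : K ⊆ U) :
    ∃ g : ℝ → ℝ, ContDiff ℝ ∞ g ∧ HasCompactSupport g ∧ tsupport g ⊆ U ∧
      (∀ x ∈ K, g x = 1) ∧ (∀ x, 0 ≤ g x) ∧ (∀ x, g x ≤ 1) := by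
  obtain ⟨δ, hδ, hδB⟩ := hK.exists_cthickening_subset_open hU hKU
  obtain ⟨f, hf1, hf2, hf3⟩ := exists_contMDiff_support_eq_eq_one_iff (𝓘(ℝ, ℝ))
    (Metric.isOpen_thickening (δ := δ) (E := K)) hK.isClosed
    (Metric.self_subset_thickening hδ K)
  have hs : tsupport f ⊆ Metric.cthickening δ K := by
    apply closure_minimal _ Metric.isClosed_cthickening
    rw [hf3.1]
    exact Metric.thickening_subset_cthickening _ _
  refine ⟨f, hf1.contDiff, ?_, hs.trans hδB, fun x hx => ?_, fun x => ?_, fun x => ?_⟩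
  · exact (hK.cthickening (r := δ)).of_isClosed_subset (isClosed_tsupport f) hs
  · exact (hf3.2 x).1 hx
  · exact (hf2 ⟨x, rfl⟩).1
  · exact (hf2 ⟨x, rfl⟩).2

/-- a cut-off with a small primitive -/
lemma cut {K : Set ℝ} {δ : ℝ} (hK : IsCompact K) (hδ0 : 0 < δ) (hKe : volume K < ENNReal.ofReal δ) :
    ∃ g : ℝ → ℝ, ContDiff ℝ ∞ g ∧ HasCompactSupport g ∧ (∀ x ∈ K, g x = 1) ∧ (∀ x, 0 ≤ g x) ∧
      (∀ x, g x ≤ 1) ∧ ∀ x, |Pr g x| ≤ δ := by
  obtain ⟨U, hKU, hU, hUe⟩ := K.exists_isOpen_lt_of_lt _ hKe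
  obtain ⟨g, sg, cg, tg, gK, g0, g1⟩ := exists_cutR hU hK hKU
  have gint : Integrable g := sg.continuous.integrable_of_hasCompactSupport cg
  have Ufin : volume U ≠ ⊤ := ne_top_of_lt hUe
  have gle : ∫ x, |g x| ≤ δ := by
    have e1 : ∫ x, |g x| = ∫ x in U, |g x| := by
      refine (setIntegral_eq_integral_of_forall_compl_eq_zero fun x hx => ?_).symm
      rw [image_eq_zero_of_notMem_tsupport (fun h => hx (tg h)), abs_zero]
    rw [e1]
    have e2 : ∫ x in U, |g x| ≤ ∫ x in U, (1 : ℝ) := by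
      refine setIntegral_mono_on gint.abs.integrableOn (integrableOn_const Ufin) hU.measurableSet
        fun x _ => ?_
      rw [abs_of_nonneg (g0 x)]; exact g1 x
    refine e2.trans ?_
    rw [setIntegral_const, smul_eq_mul, mul_one]
    exact ENNReal.toReal_le_of_le_ofReal hδ0.le hUe.le
  refine ⟨g, sg, cg, gK, g0, g1, fun x => ?_⟩
  have h1 := intervalIntegral.norm_integral_le_integral_norm_uIoc (f := g)
    (a := 0) (b := x) (μ := volume)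
  refine h1.trans (le_trans ?_ gle)
  exact setIntegral_le_integral gint.abs (ae_of_all _ fun x => abs_nonneg _)

/-- from test functions to compact sets -/
lemma base_of {ν : Measure ℝ} [IsFiniteMeasure ν] {c : ℝ}
    (H : ∀ (g : ℝ → ℝ) (δ : ℝ), ContDiff ℝ ∞ g → HasCompactSupport g → (∀ x, 0 ≤ g x) →
      (∀ x, g x ≤ 1) → 0 < δ → (∀ x, |Pr g x| ≤ δ) →
      ∫ x, g x * (|x| * √|x|) ∂ν ≤ c * √δ) :
    ∀ (K : Set ℝ) (δ : ℝ), IsCompact K → 0 < δ → volume K < ENNReal.ofReal δ →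
      ∫ x in K, |x| * √|x| ∂ν ≤ c * √δ := by
  intro K δ hK hδ0 hKe
  obtain ⟨g, sg, cg, gK, g0, g1, gP⟩ := cut hK hδ0 hKe
  have cw : Continuous (fun x : ℝ => |x| * √|x|) := by fun_prop
  have cG : Continuous (fun x => g x * (|x| * √|x|)) := sg.continuous.mul cw
  have sG : HasCompactSupport (fun x => g x * (|x| * √|x|)) := cg.mul_right
  refine le_trans ?_ (H g δ sg cg g0 g1 hδ0 gP)
  have i1 : Integrable (fun x => g x * (|x| * √|x|)) ν := cG.integrable_of_hasCompactSupport sG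
  have e4 : ∫ x in K, |x| * √|x| ∂ν = ∫ x in K, g x * (|x| * √|x|) ∂ν :=
    setIntegral_congr_fun hK.measurableSet fun x hx => by
      show |x| * √|x| = g x * (|x| * √|x|)
      rw [gK x hx, one_mul]
  rw [e4]
  exact setIntegral_le_integral i1 (ae_of_all _ fun x => mul_nonneg (g0 x) (by positivity))

/-- the first half -/
theorem part_one : ∀ (Ω : Set ℂ) (ρ : ℂ → ℝ) (lam : ℕ → ℝ) (u : ℕ → ℂ → ℝ), IsOpen Ω →
      ContDiffOn ℝ ∞ ρ Ω → (∀ z ∈ Ω, 0 < ρ z) → Tendsto lam atTop atTop →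
      (∀ n, ContDiffOn ℝ ∞ (u n) Ω) →
      (∀ n, ∀ z ∈ Ω, lapl (u n) z + lam n * (ρ z * u n z) = 0) →
      LocL2 Ω u → ∀ φ : ℂ → ℝ, Test Ω φ → ∀ m : ℝ,
      (∀ᶠ n in atTop, ∫ z, φ z * (ρ z * u n z ^ 2) ≤ m) →
      (∀ ε : ℝ, 0 < ε → ∀ᶠ n in atTop, ∀ K : Set ℝ, MeasurableSet K → volume K ≠ ⊤ →
        ∫⁻ x in K, ENNReal.ofReal (|x| * √|x|) ∂(lawOf Ω φ ρ (u n)) ≤
          ENNReal.ofReal ((42 * √((∫ z, φ z * ρ z) * m) + ε) * √(volume K).toReal)) ∧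
      ∀ ν : Measure ℝ, IsFiniteMeasure ν → IsLimitLaw φ ρ u ν →
        (∀ K : Set ℝ, MeasurableSet K → volume K ≠ ⊤ →
          ∫⁻ x in K, ENNReal.ofReal (|x| * √|x|) ∂ν ≤
            ENNReal.ofReal (42 * √((∫ z, φ z * ρ z) * m) * √(volume K).toReal)) ∧
        ∃ f : ℝ → ℝ, Measurable f ∧ (∀ x, 0 ≤ f x) ∧
          ν.restrict {0}ᶜ = volume.withDensity (fun x => ENNReal.ofReal (f x)) ∧
          (∀ a s : ℝ, 0 < a → 0 < s → volume {x : ℝ | a ≤ |x| ∧ s ≤ f x} ≤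
            ENNReal.ofReal (1764 * ((∫ z, φ z * ρ z) * m) / (a ^ 3 * s ^ 2))) ∧
          (∀ a p : ℝ, 0 < a → 1 ≤ p → p < 2 →
            ∫⁻ x in {x : ℝ | a ≤ |x|}, ENNReal.ofReal (f x ^ p) < ⊤) := by
  intro Ω ρ lam u hΩ hρ hρ0 hlam hu he hL φ hφ m hm
  have H : Pool.Agent.Y139.PD.Hyp Ω ρ lam u := ⟨hΩ, hρ, hρ0, hlam, hu, he, hL⟩
  have A0 : 0 ≤ ∫ z, φ z * ρ z := by
    refine integral_nonneg fun z => ?_
    show 0 ≤ φ z * ρ z
    by_cases hz : z ∈ Ω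
    · exact mul_nonneg (hφ.2.2.2 z) (hρ0 z hz).le
    · rw [image_eq_zero_of_notMem_tsupport fun h => hz (hφ.2.2.1 h), zero_mul]
  have m0 : 0 ≤ m := by
    obtain ⟨n, hn⟩ := hm.exists
    refine le_trans (integral_nonneg fun z => ?_) hn
    show 0 ≤ φ z * (ρ z * u n z ^ 2)
    by_cases hz : z ∈ Ω
    · exact mul_nonneg (hφ.2.2.2 z) (mul_nonneg (hρ0 z hz).le (sq_nonneg _))
    · rw [image_eq_zero_of_notMem_tsupport fun h => hz (hφ.2.2.1 h), zero_mul]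
  refine ⟨fun ε ε0 => ?_, fun ν hν hlim => ?_⟩
  · filter_upwards [U2 H hφ hm ε0] with n hn K mK fK
    have cf : ContinuousOn (u n) Ω := (hu n).continuousOn
    have fin : IsFiniteMeasure (lawOf Ω φ ρ (u n)) :=
      Pool.Agent.Y139.PD.mu_fin hΩ cf hφ hρ hρ0
    refine borel_of_compact (base_of fun g δ sg cg g0 g1 hδ gP => ?_) mK fK
    have cG : Continuous (fun x => g x * (|x| * √|x|)) := sg.continuous.mul (by fun_prop)
    have e1 : ∫ x, g x * (|x| * √|x|) ∂(lawOf Ω φ ρ (u n)) =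
        ∫ z, φ z * (ρ z * (g (u n z) * (|u n z| * √|u n z|))) :=
      Pool.Agent.Y139.PD.mu_int hΩ cf hφ hρ hρ0 cG
    rw [e1]
    have e2 : ∫ z, φ z * (ρ z * (g (u n z) * (|u n z| * √|u n z|))) =
        ∫ z, φ z * (g (u n z) * (|u n z| * √|u n z|) * ρ z) := by
      congr 1; funext z; ring
    rw [e2]
    exact hn g δ sg g0 g1 hδ gP
  · obtain ⟨σ, hσ, hg⟩ := hlim
    have hBor : ∀ K : Set ℝ, MeasurableSet K → volume K ≠ ⊤ →
        ∫⁻ x in K, ENNReal.ofReal (|x| * √|x|) ∂ν ≤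
          ENNReal.ofReal (42 * √((∫ z, φ z * ρ z) * m) * √(volume K).toReal) := by
      intro K mK fK
      refine borel_of_compact (base_of fun g δ sg cg g0 g1 hδ gP => ?_) mK fK
      have cG : Continuous (fun x => g x * (|x| * √|x|)) := sg.continuous.mul (by fun_prop)
      have sG : HasCompactSupport (fun x => g x * (|x| * √|x|)) := cg.mul_right
      have lim := hg _ cG sG
      have each : ∀ ε : ℝ, 0 < ε → ∫ x, g x * (|x| * √|x|) ∂ν ≤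
          (42 * √((∫ z, φ z * ρ z) * m) + ε) * √δ := fun ε ε0 =>
        le_of_tendsto lim ((hσ.tendsto_atTop.eventually (U2 H hφ hm ε0)).mono
          fun n hn => hn g δ sg g0 g1 hδ gP)
      have l2 : Tendsto (fun ε : ℝ => (42 * √((∫ z, φ z * ρ z) * m) + ε) * √δ) (𝓝[>] 0)
          (𝓝 ((42 * √((∫ z, φ z * ρ z) * m) + 0) * √δ)) := by
        refine Tendsto.mono_left ?_ nhdsWithin_le_nhds
        refine Continuous.tendsto
          (f := fun ε : ℝ => (42 * √((∫ z, φ z * ρ z) * m) + ε) * √δ) ?_ 0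
        fun_prop
      rw [add_zero] at l2
      exact ge_of_tendsto l2 (eventually_nhdsWithin_of_forall fun ε hε => each ε hε)
    refine ⟨hBor, ?_⟩
    have C2 : (42 * √((∫ z, φ z * ρ z) * m)) ^ 2 = 1764 * ((∫ z, φ z * ρ z) * m) := by
      rw [mul_pow, Real.sq_sqrt (mul_nonneg A0 m0)]; norm_num
    obtain ⟨f, mf, f0, ff, fw⟩ := weak_of_borel (by positivity) hBor
    rw [C2] at fw
    refine ⟨f, mf, f0, ff, fw, fun a p ha h1p hp2 => ?_⟩
    refine lp_of_weak (D := 1764 * ((∫ z, φ z * ρ z) * m) / a ^ 3) mf f0 ?_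
      (by positivity) h1p hp2 fun s hs => ?_
    · have e1 : ∫⁻ x, ENNReal.ofReal (f x) = (ν.restrict {0}ᶜ) Set.univ := by
        rw [ff, withDensity_apply _ MeasurableSet.univ, Measure.restrict_univ]
      rw [e1]
      exact measure_ne_top _ _
    · refine (fw a s ha hs).trans (le_of_eq ?_)
      congr 1
      field_simp

/-- the second half -/
theorem part_two : ∃ u : ℕ → ℂ → ℝ, (∀ n, ContDiffOn ℝ ∞ (u n) Set.univ) ∧
      (∀ n : ℕ, ∀ z ∈ Set.univ, lapl (u n) z + (n : ℝ) ^ 2 * ((1 : ℝ) * u n z) = 0) ∧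
      LocL2 Set.univ u ∧ ∀ φ : ℂ → ℝ, Test Set.univ φ → ∃ ν : Measure ℝ, IsFiniteMeasure ν ∧
        IsLimitLaw φ (fun _ => 1) u ν ∧ ∀ δ : ℝ, 0 < δ → δ ≤ 1 →
          (∫ z, φ z) * (√δ / 5) ≤ (ν (Set.Icc (1 - δ) 1)).toReal := by
  refine ⟨wave, fun n => (wave_smooth n).contDiffOn, fun n z _ => ?_, ?_, fun φ hφ => ?_⟩
  · show fderiv ℝ (fun w => fderiv ℝ (wave n) w 1) z 1 +
      fderiv ℝ (fun w => fderiv ℝ (wave n) w I) z I + _ = 0
    rw [wave_lapl]; ring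
  · intro K hK _
    refine ⟨∫ z in K, (1 : ℝ), Eventually.of_forall fun n => ?_⟩
    refine setIntegral_mono_on (((wave_smooth n).continuous.pow 2).continuousOn.integrableOn_compact
      hK) (integrableOn_const hK.measure_lt_top.ne) hK.measurableSet fun z _ => ?_
    unfold wave
    exact Real.cos_sq_le_one _
  · have φ0 : 0 ≤ ∫ z, φ z := integral_nonneg hφ.2.2.2
    have := arcs_prob
    refine ⟨(ENNReal.ofReal (∫ z, φ z)) • arcs, ?_, ⟨id, strictMono_id, fun g cg _ => ?_⟩,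
      fun δ hδ hδ1 => ?_⟩
    · exact Measure.smul_finite _ ENNReal.ofReal_ne_top
    · rw [integral_smul_measure, ENNReal.toReal_ofReal φ0, smul_eq_mul, arcs_int cg]
      have h1 := avg_per (G := fun t => g (Real.cos t)) (cg.comp Real.continuous_cos)
        (fun x => by show g (Real.cos _) = g (Real.cos x); rw [Real.cos_add_two_pi]) hφ.1 hφ.2.1
      refine h1.congr fun n => ?_
      congr 1; funext z
      show φ z * g (Real.cos (n * z.re)) = φ z * (g (wave n z) * 1)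
      rw [mul_one]; rfl
    · rw [Measure.smul_apply, smul_eq_mul, ENNReal.toReal_mul, ENNReal.toReal_ofReal φ0]
      exact mul_le_mul_of_nonneg_left (arcs_mass hδ hδ1) φ0

/-- **The laws of eigenfunctions satisfy `∫_K |x|^(3/2) ≤ (42 (mass · second moment)^(1/2) + o(1)) |K|^(1/2)`
uniformly in `K`; limit laws have a weak-`L²` density away from zero; the exponent is optimal.** -/
theorem result :
    (∀ (Ω : Set ℂ) (ρ : ℂ → ℝ) (lam : ℕ → ℝ) (u : ℕ → ℂ → ℝ), IsOpen Ω →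
      ContDiffOn ℝ ∞ ρ Ω → (∀ z ∈ Ω, 0 < ρ z) → Tendsto lam atTop atTop →
      (∀ n, ContDiffOn ℝ ∞ (u n) Ω) →
      (∀ n, ∀ z ∈ Ω, lapl (u n) z + lam n * (ρ z * u n z) = 0) →
      LocL2 Ω u → ∀ φ : ℂ → ℝ, Test Ω φ → ∀ m : ℝ,
      (∀ᶠ n in atTop, ∫ z, φ z * (ρ z * u n z ^ 2) ≤ m) →
      (∀ ε : ℝ, 0 < ε → ∀ᶠ n in atTop, ∀ K : Set ℝ, MeasurableSet K → volume K ≠ ⊤ →
        ∫⁻ x in K, ENNReal.ofReal (|x| * √|x|) ∂(lawOf Ω φ ρ (u n)) ≤
          ENNReal.ofReal ((42 * √((∫ z, φ z * ρ z) * m) + ε) * √(volume K).toReal)) ∧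
      ∀ ν : Measure ℝ, IsFiniteMeasure ν → IsLimitLaw φ ρ u ν →
        (∀ K : Set ℝ, MeasurableSet K → volume K ≠ ⊤ →
          ∫⁻ x in K, ENNReal.ofReal (|x| * √|x|) ∂ν ≤
            ENNReal.ofReal (42 * √((∫ z, φ z * ρ z) * m) * √(volume K).toReal)) ∧
        ∃ f : ℝ → ℝ, Measurable f ∧ (∀ x, 0 ≤ f x) ∧
          ν.restrict {0}ᶜ = volume.withDensity (fun x => ENNReal.ofReal (f x)) ∧
          (∀ a s : ℝ, 0 < a → 0 < s → volume {x : ℝ | a ≤ |x| ∧ s ≤ f x} ≤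
            ENNReal.ofReal (1764 * ((∫ z, φ z * ρ z) * m) / (a ^ 3 * s ^ 2))) ∧
          (∀ a p : ℝ, 0 < a → 1 ≤ p → p < 2 →
            ∫⁻ x in {x : ℝ | a ≤ |x|}, ENNReal.ofReal (f x ^ p) < ⊤)) ∧
    ∃ u : ℕ → ℂ → ℝ, (∀ n, ContDiffOn ℝ ∞ (u n) Set.univ) ∧
      (∀ n : ℕ, ∀ z ∈ Set.univ, lapl (u n) z + (n : ℝ) ^ 2 * ((1 : ℝ) * u n z) = 0) ∧
      LocL2 Set.univ u ∧ ∀ φ : ℂ → ℝ, Test Set.univ φ → ∃ ν : Measure ℝ, IsFiniteMeasure ν ∧
        IsLimitLaw φ (fun _ => 1) u ν ∧ ∀ δ : ℝ, 0 < δ → δ ≤ 1 →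
          (∫ z, φ z) * (√δ / 5) ≤ (ν (Set.Icc (1 - δ) 1)).toReal :=
  ⟨part_one, part_two⟩

end

end Pool.Agent.Results.MP_a52643_an.WeakLTwoDensityH19
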